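import Pool.Agent.helper73.BS.Spec

/-!
# MP_a2a22c_al, row bs:JW
-/

set_option autoImplicit false

namespace Pool.Agent.BS

open Matrix Module Pool.Agent.UG

theorem JW_pow {n : ℕ} {y : MQ n} {B : Submodule ℚ (VQ n)} (hB : ∀ w ∈ B, y *ᵥ w ∈ B) (k : ℕ) :
    ∀ w ∈ B, (y ^ k) *ᵥ w ∈ B := by
  induction k with
  | zero =>
    intro w hw
    rw [pow_zero, Matrix.one_mulVec]
    exact hw
  | succ k ih =>
    intro w hw
    rw [pow_succ, ← mulVec_mulVec]
    exact ih _ (hB w hw)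

theorem JW_stab {n : ℕ} {y : MQ n} {B : Submodule ℚ (VQ n)} (hB : ∀ w ∈ B, y *ᵥ w ∈ B)
    (p : Polynomial ℚ) : ∀ w ∈ B, (Polynomial.aeval y p) *ᵥ w ∈ B := by
  intro w hw
  induction p using Polynomial.induction_on' with
  | add p q hp hq =>
    rw [map_add, Matrix.add_mulVec]
    exact B.add_mem hp hq
  | monomial k a =>
    rw [Polynomial.aeval_monomial, ← Algebra.smul_def, Matrix.smul_mulVec]
    exact B.smul_mem a (JW_pow hB k w hw)

/-- the polynomials `p` such that `p(y)` maps `A` into `B` -/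
noncomputable def JWi {n : ℕ} (y : MQ n) (A B : Submodule ℚ (VQ n)) (hB : ∀ w ∈ B, y *ᵥ w ∈ B) :
    Ideal (Polynomial ℚ) where
  carrier := {p | ∀ w ∈ A, (Polynomial.aeval y p) *ᵥ w ∈ B}
  add_mem' := by
    intro p q hp hq w hw
    rw [map_add, Matrix.add_mulVec]
    exact B.add_mem (hp w hw) (hq w hw)
  zero_mem' := by
    intro w _
    rw [map_zero, Matrix.zero_mulVec]
    exact B.zero_mem
  smul_mem' := by
    intro c p hp w hw
    rw [smul_eq_mul, map_mul, ← mulVec_mulVec]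
    exact JW_stab hB c _ (hp w hw)

theorem mem_JWi {n : ℕ} {y : MQ n} {A B : Submodule ℚ (VQ n)} {hB : ∀ w ∈ B, y *ᵥ w ∈ B}
    {p : Polynomial ℚ} : p ∈ JWi y A B hB ↔ ∀ w ∈ A, (Polynomial.aeval y p) *ᵥ w ∈ B := Iff.rfl

/-- `exp M = 1 + M * E'(M)` -/
theorem JW_exp {n : ℕ} {M : MQ n} (hM : IsNilpotent M) :
    ∃ E : Polynomial ℚ, IsNilpotent.exp M = 1 + M * Polynomial.aeval M E := by
  obtain ⟨m, hm⟩ := hM
  have hm1 : M ^ (m + 1) = 0 := by rw [pow_succ, hm, zero_mul]
  refine ⟨∑ i ∈ Finset.range m, Polynomial.C (((i + 1).factorial : ℚ)⁻¹) * Polynomial.X ^ i, ?_⟩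
  rw [IsNilpotent.exp_eq_sum hm1, Finset.sum_range_succ', map_sum, Finset.mul_sum, add_comm]
  congr 1
  · simp
  · apply Finset.sum_congr rfl
    intro i _
    rw [map_mul, map_pow, Polynomial.aeval_C, Polynomial.aeval_X, pow_succ', ← Algebra.smul_def,
      mul_smul_comm]

theorem JW (hJE : JE_stmt) : JW_stmt := by
  intro n y s N hy hJD A B hBA hA hB hAB
  obtain ⟨s0, N0, _, hs0, hN0, huniq⟩ := hJE n y hy
  obtain ⟨hs1, hN1⟩ := huniq s N hJD
  rw [← hs1] at hs0
  rw [← hN1] at hN0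
  rw [Algebra.adjoin_singleton_eq_range_aeval] at hs0 hN0
  obtain ⟨ps, hps⟩ := hs0
  obtain ⟨pN, hpN⟩ := hN0
  have hps' : Polynomial.aeval y ps = s := hps
  have hpN' : Polynomial.aeval y pN = N := hpN
  obtain ⟨hNn, hcom, hss, hyd⟩ := hJD
  set K := JWi y A B hB with hK
  -- `pN` is in the radical
  have hrN : pN ∈ K.radical := by
    obtain ⟨m, hm⟩ := hNn
    refine ⟨m, ?_⟩
    rw [hK, mem_JWi]
    intro w _
    rw [map_pow, hpN', hm, Matrix.zero_mulVec]
    exact B.zero_mem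
  -- `X - 1` is in the radical
  have hr1 : (Polynomial.X - 1 : Polynomial ℚ) ∈ K.radical := by
    refine ⟨2, ?_⟩
    rw [hK, mem_JWi]
    intro w hw
    rw [map_pow, map_sub, map_one, Polynomial.aeval_X, sq, ← mulVec_mulVec, Matrix.sub_mulVec,
      Matrix.sub_mulVec, Matrix.one_mulVec, Matrix.one_mulVec]
    exact hAB w hw
  -- `exp (-N)` as a polynomial
  obtain ⟨E, hE⟩ := JW_exp (M := -N) hNn.neg
  have hse : s = y * IsNilpotent.exp (-N) := by
    rw [hyd, mul_assoc, IsNilpotent.exp_mul_exp_neg_self hNn, mul_one]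
  have hcomp : Polynomial.aeval y (E.comp (-pN)) = Polynomial.aeval (-N) E := by
    rw [Polynomial.aeval_comp, map_neg, hpN']
  have hrs : ps - 1 ∈ K.radical := by
    have h1 : ps - Polynomial.X * (1 + (-pN) * E.comp (-pN)) ∈ K := by
      rw [hK, mem_JWi]
      intro w _
      rw [map_sub, hps', map_mul, Polynomial.aeval_X, map_add, map_one, map_mul, map_neg, hpN',
        hcomp, ← hE, ← hse, sub_self, Matrix.zero_mulVec]
      exact B.zero_mem
    have h2 : ps - 1 = (ps - Polynomial.X * (1 + (-pN) * E.comp (-pN))) +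
        ((1 + (-pN) * E.comp (-pN)) * (Polynomial.X - 1) + (-E.comp (-pN)) * pN) := by ring
    rw [h2]
    exact K.radical.add_mem (Ideal.le_radical h1)
      (K.radical.add_mem (K.radical.mul_mem_left _ hr1) (K.radical.mul_mem_left _ hrN))
  obtain ⟨r, hr⟩ := hrs
  -- the ideal of polynomials in `s`
  let φ : Polynomial ℚ →ₐ[ℚ] Polynomial ℚ := Polynomial.aeval ps
  have hφ : ∀ p : Polynomial ℚ, Polynomial.aeval y (φ p) = Polynomial.aeval s p := by
    intro p
    rw [← hps', Polynomial.aeval_algHom_apply]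
  let L : Ideal (Polynomial ℚ) := K.comap φ.toRingHom
  have hLmem : ∀ p : Polynomial ℚ, p ∈ L ↔ φ p ∈ K := fun p => Iff.rfl
  have hμ : minpoly ℚ (Matrix.toLin' s) ∈ L := by
    rw [hLmem, hK, mem_JWi]
    intro w _
    rw [hφ, Matrix.minpoly_toLin', minpoly.aeval, Matrix.zero_mulVec]
    exact B.zero_mem
  have hX : (Polynomial.X - 1 : Polynomial ℚ) ^ r ∈ L := by
    rw [hLmem, map_pow, map_sub, map_one]
    have : φ Polynomial.X = ps := Polynomial.aeval_X ps
    rw [this]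
    exact hr
  obtain ⟨g, hg⟩ := (IsPrincipalIdealRing.principal L).principal
  have hg' : L = Ideal.span {g} := hg
  rw [hg', Ideal.mem_span_singleton] at hμ hX
  have hsq : Squarefree g := (hss.minpoly_squarefree).squarefree_of_dvd hμ
  have hdvd : g ∣ (Polynomial.X - 1 : Polynomial ℚ) := hsq.isRadical r _ hX
  have hfin : (Polynomial.X - 1 : Polynomial ℚ) ∈ L := by
    rw [hg', Ideal.mem_span_singleton]
    exact hdvd
  rw [hLmem, hK, mem_JWi] at hfin
  intro w hw
  have h3 := hfin w hw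
  rw [hφ, map_sub, map_one, Polynomial.aeval_X, Matrix.sub_mulVec, Matrix.one_mulVec] at h3
  exact h3

end Pool.Agent.BS
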